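import Mathlib

set_option autoImplicit false

namespace Pool.Agent.Results.MP_998457_co.Counter

open Matrix Kronecker

/-- x is reachable from 0 by single bit flips through words violating at most E checks -/
def Reach {m n : Type} [Fintype m] [Fintype n] (δ : Matrix m n (ZMod 2)) (E : ℕ)
    (x : n → ZMod 2) : Prop :=
  ∃ (F : ℕ) (p : ℕ → n → ZMod 2), p 0 = 0 ∧ p F = x ∧
    (∀ i < F, hammingDist (p i) (p (i + 1)) = 1) ∧ ∀ i ≤ F, hammingNorm (δ *ᵥ p i) ≤ E

/-- E is the energy barrier of the parity-check matrix -/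
def IsBarrier {m n : Type} [Fintype m] [Fintype n] (δ : Matrix m n (ZMod 2)) (E : ℕ) : Prop :=
  IsLeast {e : ℕ | ∃ x : n → ZMod 2, x ≠ 0 ∧ δ *ᵥ x = 0 ∧ Reach δ e x} E

/-- d is the minimum distance of the code -/
def IsDist {m n : Type} [Fintype m] [Fintype n] (δ : Matrix m n (ZMod 2)) (d : ℕ) : Prop :=
  IsLeast {w : ℕ | ∃ x : n → ZMod 2, x ≠ 0 ∧ δ *ᵥ x = 0 ∧ hammingNorm x = w} d

/-- parity-check matrix of the tensor product code -/
def tens {ma na mb nb : Type} [DecidableEq na] [DecidableEq nb] (δa : Matrix ma na (ZMod 2))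
    (δb : Matrix mb nb (ZMod 2)) : Matrix ((ma × nb) ⊕ (na × mb)) (na × nb) (ZMod 2) :=
  Matrix.fromRows (δa ⊗ₖ (1 : Matrix nb nb (ZMod 2))) ((1 : Matrix na na (ZMod 2)) ⊗ₖ δb)

def H : Matrix (Fin 3) (Fin 4) (ZMod 2) := !![1, 1, 0, 0; 1, 0, 1, 0; 1, 1, 1, 1]

def tm : Matrix (Fin 4) (Fin 4) ℕ := !![3, 0, 5, 7; 2, 1, 4, 6; 9, 8, 10, 11; 12, 13, 14, 15]

def path (i : ℕ) : Fin 4 × Fin 4 → ZMod 2 := fun q => if tm q.1 q.2 < i then 1 else 0

lemma ker_H : ∀ x : Fin 4 → ZMod 2, H *ᵥ x = 0 → x = 0 ∨ x = fun _ => 1 := by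
  decide +kernel

def R : List (Fin 4 → ZMod 2) := [0, ![0, 0, 0, 1], ![0, 1, 0, 1], ![0, 0, 1, 1]]

lemma closed_H : ∀ x y : Fin 4 → ZMod 2, x ∈ R → hammingDist x y = 1 →
    hammingNorm (H *ᵥ y) ≤ 1 → y ∈ R := by
  decide +kernel

lemma dist_H : IsDist H 4 := by
  constructor
  · refine ⟨fun _ => 1, by decide, by decide +kernel, by decide +kernel⟩
  · rintro w ⟨x, hx, hk, rfl⟩
    rcases ker_H x hk with h | h
    · exact absurd h hx
    · subst h; decide +kernel

lemma bar_H : IsBarrier H 2 := by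
  constructor
  · refine ⟨fun _ => 1, by decide, by decide +kernel, 4,
      fun i j => if (![2, 1, 3, 0] : Fin 4 → ℕ) j < i then 1 else 0, by decide +kernel,
      by decide +kernel, by decide +kernel, by decide +kernel⟩
  · rintro e ⟨x, hx, hk, F, p, h0, hF, hs, he⟩
    by_contra hlt
    have hlt' : e ≤ 1 := by omega
    have key : ∀ i ≤ F, p i ∈ R := by
      intro i
      induction i with
      | zero => intro _; rw [h0]; exact List.mem_cons_self
      | succ i ih =>
        intro hi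
        exact closed_H _ _ (ih (by omega)) (hs i (by omega)) ((he _ hi).trans hlt')
    rcases ker_H x hk with h | h
    · exact hx h
    · have := key F le_rfl
      rw [hF, h] at this
      revert this; decide +kernel

lemma reach6 : ∃ x : Fin 4 × Fin 4 → ZMod 2, x ≠ 0 ∧ tens H H *ᵥ x = 0 ∧ Reach (tens H H) 6 x := by
  refine ⟨fun _ => 1, by decide +kernel, by decide +kernel, 16, path, by decide +kernel,
    by decide +kernel, by decide +kernel, by decide +kernel⟩

lemma rank_H : LinearIndependent (ZMod 2) H.row := by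
  rw [Fintype.linearIndependent_iff]
  decide +kernel

theorem result :
    ∃ (δ : Matrix (Fin 3) (Fin 4) (ZMod 2)) (d E Ec : ℕ), LinearIndependent (ZMod 2) δ.row ∧
      IsDist δ d ∧ IsBarrier δ E ∧ IsBarrier (tens δ δ) Ec ∧ Ec < min (d * E) (E * d) := by
  classical
  have hne : ∃ e : ℕ, e ∈ {e : ℕ | ∃ x : Fin 4 × Fin 4 → ZMod 2, x ≠ 0 ∧ tens H H *ᵥ x = 0 ∧
      Reach (tens H H) e x} := ⟨6, reach6⟩
  refine ⟨H, 4, 2, Nat.find hne, rank_H, dist_H, bar_H,
    ⟨Nat.find_spec hne, fun e he => Nat.find_min' hne he⟩, ?_⟩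
  have : Nat.find hne ≤ 6 := Nat.find_min' hne reach6
  omega

end Pool.Agent.Results.MP_998457_co.Counter
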